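import Mathlib
import Pool.Agent.Work.MP_ebd556_mp.Defs
import Pool.Agent.Work.MP_ebd556_mp.Final

set_option autoImplicit false

namespace Pool.Agent.Results.MP_ebd556_mp.UniversalConstant

open Pool.Agent.Work.MP_ebd556_mp
open scoped ComplexOrder

/-- The multivariate trace inequality with one constant for all `n` and all dimensions: for
positive semidefinite matrices `A_1, ..., A_n` of size `d`, `L(A) ≥ 120 R(A)`. -/
theorem result :
    ∀ (n d : ℕ) (A : Fin n → Matrix (Fin d) (Fin d) ℂ), (∀ j, (A j).PosSemidef) →
      120 * Rval A ≤ Lval A :=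
  fun _ _ A hA => main A hA

end Pool.Agent.Results.MP_ebd556_mp.UniversalConstant
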